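import Pool.Agent.H58.SO.Basic

/-!
# Several orbits of vertices: unary maps given by blocks
-/

set_option autoImplicit false
set_option linter.unusedVariables false

namespace Pool.Agent.H70.SO

open Pool.Agent.H68.BP Pool.Agent.H58.SF Pool.Agent.H53.GC Pool.Agent.H53.NR Pool.Agent.H58.SO
open Classical

namespace UKM

section

variable {V X Θ : Type} {M : ℕ} [LinearOrder V]

/-- the levels -/
noncomputable def lvu (B : Bs V X Θ M) (κ : Fin 6 → ℕ) (s : Θ) (x : V) (l : Fin 6) : ℕ :=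
  if B.vt x = s then 2 * κ l else 2 * l.val + 1

/-- the supports -/
def spu (κ : Fin 6 → ℕ) (k : ℕ) : Set (Fin 6) := {l | k = 2 * κ l ∨ k = 2 * l.val + 1}

/-- unary configurations -/
def Cu (B : Bs V X Θ M) (κ : Fin 6 → ℕ) (s : Θ) {P : Type} (x : P → V) (z : P → Fin 6 → V) :
    Prop :=
  Cfg B (fun a (_ : Fin 6) => x a) (fun a l => lvu B κ s (x a) l) (fun a _ => x a) (spu κ) z

theorem ex_cu (hSCF : T_SCF) (B : Bs V X Θ M) (κ : Fin 6 → ℕ) (s : Θ) {P : Type} [Finite P]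
    (x : P → V) : ∃ z, Cu B κ s x z :=
  hSCF V X Θ M B P (Fin 6) V (fun a _ => x a) (fun a l => lvu B κ s (x a) l) (fun a _ => x a)
    (spu κ) fun a l b l' _ => Iff.rfl

/-- The colours and orders in a configuration depend only on those of the given elements. -/
theorem ct_cu (hSCP : T_SCP) (B : Bs V X Θ M) (κ : Fin 6 → ℕ) (s : Θ) {P P' : Type}
    {x : P → V} {z : P → Fin 6 → V} {x' : P' → V} {z' : P' → Fin 6 → V} (h : Cu B κ s x z)
    (h' : Cu B κ s x' z') {u v : P} {u' v' : P'} (huv : B.ct (x u) (x v) = B.ct (x' u') (x' v'))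
    (l l' : Fin 6) : B.ct (z u l) (z v l') = B.ct (z' u' l) (z' v' l') := by
  have h1 := B.ct_eq_imp huv
  have h2 := B.ct_eq_ct.1 huv
  refine hSCP V X Θ M B P P' (Fin 6) V V _ _ _ _ _ _ _ z z' h h' u v u' v' l l' ?_ ?_ h1.2.1
    h1.2.2 (fun _ => h2.2) fun _ => ⟨h1.1, h2.1⟩
  · show lvu B κ s (x u) l = lvu B κ s (x' u') l
    unfold lvu
    rw [h1.2.1]
  · show lvu B κ s (x v) l' = lvu B κ s (x' v') l'
    unfold lvu
    rw [h1.2.2]

theorem ct_diag (B : Bs V X Θ M) {x y : V} (h : B.vt x = B.vt y) : B.ct x x = B.ct y y := by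
  rw [B.ct_self, B.ct_self, h]

theorem h_cu (hSCP : T_SCP) (B : Bs V X Θ M) {D : Set Θ}
    {h : (Fin 6 → V) → (Fin 6 → V) → X × Ordering} (ht : TID B D h) (κ : Fin 6 → ℕ) (s : Θ)
    {P P' : Type} {x : P → V} {z : P → Fin 6 → V} {x' : P' → V} {z' : P' → Fin 6 → V}
    (hz : Cu B κ s x z) (hz' : Cu B κ s x' z') {u v : P} {u' v' : P'}
    (huv : B.ct (x u) (x v) = B.ct (x' u') (x' v')) : h (z u) (z v) = h (z' u') (z' v') := by
  have h1 := B.ct_eq_imp huv
  apply ht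
  apply sameO_of_ct
  rintro (l | l) (l' | l')
  · exact (ct_cu hSCP B κ s hz hz' (ct_diag B h1.2.1) l l').symm
  · exact (ct_cu hSCP B κ s hz hz' huv l l').symm
  · exact (ct_cu hSCP B κ s hz hz' (B.ct_symm huv) l l').symm
  · exact (ct_cu hSCP B κ s hz hz' (ct_diag B h1.2.2) l l').symm

/-- the unary map -/
noncomputable def mu (B : Bs V X Θ M) (κ : Fin 6 → ℕ) (s : Θ)
    (h : (Fin 6 → V) → (Fin 6 → V) → X × Ordering) (t : X × Ordering) : X × Ordering :=
  if hx : ∃ (x : Fin 2 → V) (z : Fin 2 → Fin 6 → V), B.ct (x 0) (x 1) = t ∧ Cu B κ s x z then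
    h (hx.choose_spec.choose 0) (hx.choose_spec.choose 1) else t

theorem mu_eq (hSCF : T_SCF) (hSCP : T_SCP) (B : Bs V X Θ M) {D : Set Θ}
    {h : (Fin 6 → V) → (Fin 6 → V) → X × Ordering} (ht : TID B D h) (κ : Fin 6 → ℕ) (s : Θ)
    {P : Type} {x : P → V} {z : P → Fin 6 → V} (hz : Cu B κ s x z) (a b : P) :
    mu B κ s h (B.ct (x a) (x b)) = h (z a) (z b) := by
  have hx : ∃ (x' : Fin 2 → V) (z' : Fin 2 → Fin 6 → V), B.ct (x' 0) (x' 1) = B.ct (x a) (x b) ∧
      Cu B κ s x' z' := by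
    obtain ⟨z', hz'⟩ := ex_cu hSCF B κ s ![x a, x b]
    exact ⟨_, z', rfl, hz'⟩
  unfold mu
  rw [dif_pos hx]
  have h1 := hx.choose_spec.choose_spec
  exact h_cu hSCP B ht κ s h1.2 hz h1.1

/-- blocks of type `s` -/
theorem zb_s {B : Bs V X Θ M} {κ : Fin 6 → ℕ} {s : Θ} {P : Type} {x : P → V}
    {z : P → Fin 6 → V} (hz : Cu B κ s x z) (a : P) (ha : B.vt (x a) = s) : ZB B κ (z a) := by
  have h1 : ZB B (fun l => 2 * κ l) (z a) := by
    refine Cfg.zb hz a (fun l => 2 * κ l) (fun l => ?_) (fun _ _ _ => rfl) fun _ _ _ => Or.inr rfl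
    show lvu B κ s (x a) l = 2 * κ l
    rw [lvu, if_pos ha]
  intro l l'
  refine ⟨fun h2 => (h1 l l').1 ?_, fun h2 => (h1 l l').2 ?_⟩
  · show 2 * κ l = 2 * κ l'
    rw [h2]
  · show 2 * κ l < 2 * κ l'
    omega

/-- blocks of other types -/
theorem zb_t {B : Bs V X Θ M} {κ : Fin 6 → ℕ} {s : Θ} {P : Type} {x : P → V}
    {z : P → Fin 6 → V} (hz : Cu B κ s x z) (a : P) (ha : B.vt (x a) ≠ s) : ZB B gen (z a) := by
  have h1 : ZB B (fun l : Fin 6 => 2 * l.val + 1) (z a) := by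
    refine Cfg.zb hz a (fun l => 2 * l.val + 1) (fun l => ?_) (fun _ _ _ => rfl)
      fun _ _ _ => Or.inr rfl
    show lvu B κ s (x a) l = 2 * l.val + 1
    rw [lvu, if_neg ha]
  intro l l'
  refine ⟨fun h2 => (h1 l l').1 ?_, fun h2 => (h1 l l').2 ?_⟩
  · show 2 * l.val + 1 = 2 * l'.val + 1
    have h3 : l.val + 1 = l'.val + 1 := h2
    omega
  · show 2 * l.val + 1 < 2 * l'.val + 1
    have h3 : l.val + 1 < l'.val + 1 := h2
    omega

/-- a free ascending pair of elements of type `s` -/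
theorem ex_pair (hSCF : T_SCF) (B : Bs V X Θ M) (s : Θ) :
    ∃ x y : V, x < y ∧ B.vt x = s ∧ B.vt y = s ∧ B.c x y = B.fr s s := by
  obtain ⟨v, hv⟩ := B.surjT s
  obtain ⟨z, hz⟩ := hSCF V X Θ M B (Fin 2) Unit ℕ (fun _ _ => v) (fun a _ => a.val)
    (fun _ _ => 0) (fun _ => ∅) fun a l b l' _ => ⟨fun _ => rfl, fun _ => rfl⟩
  refine ⟨z 0 (), z 1 (), (hz.lt 0 () 1 ()).2 (Or.inl ?_), ?_, ?_, ?_⟩
  · show (0 : Fin 2).val < (1 : Fin 2).val
    simp
  · rw [hz.typ, hv]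
  · rw [hz.typ, hv]
  · have h1 := (hz.col 0 () 1 ()).2 (by
      rintro ⟨h2, h3⟩
      exact h3 rfl)
    rw [h1, hv]

end

end UKM

open UKM in
theorem pf_UKM (hSCF : T_SCF) (hSCP : T_SCP) (hCCL : T_CCL) (hEXT : T_EXT) (hUMB : T_UMB)
    (hTYB : T_TYB) : T_UKM := by
  intro σ V X Θ _ M B 𝔸 D h hs κ s
  have key : ∀ {P : Type} {x : P → V} {z : P → Fin 6 → V}, Cu B κ s x z → ∀ a b : P,
      mu B κ s h (B.ct (x a) (x b)) = h (z a) (z b) := fun hz a b =>
    mu_eq hSCF hSCP B hs.tid κ s hz a b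
  have hL : ∀ (κ : Fin 6 → ℕ) (θ : Fin 6 → Θ) (z : Fin 6 → V), ZB B κ z →
      (∀ l, B.vt (z l) = θ l) → B.L (h z z).1 = tyb B h κ θ := (hTYB V X Θ M B D h hs.tid).1
  refine ⟨mu B κ s h, ?_, ?_, ?_, ?_⟩
  · intro s' x hx
    obtain ⟨z, hz⟩ := ex_cu hSCF B κ s x
    have h1 : ∀ l, relP 𝔸 M s' (fun a => z a l) := by
      intro l
      refine hs.blind.rel hx (hCCL V X Θ M B _ (Fin 6) V _ _ _ _ z l D hz ?_ ?_ ?_)
      · intro a _
        show lvu B κ s (x a) l = 2 * κ l ∨ lvu B κ s (x a) l = 2 * l.val + 1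
        unfold lvu
        by_cases h2 : B.vt (x a) = s
        · rw [if_pos h2]
          exact Or.inl rfl
        · rw [if_neg h2]
          exact Or.inr rfl
      · intro a b _ _ hab
        have hab' : x a = x b := hab
        refine ⟨?_, hab'⟩
        show lvu B κ s (x a) l = lvu B κ s (x b) l
        rw [hab']
      · intro a b _ _ _ hab
        exact hab
    obtain ⟨y, hy1, hy2⟩ := hs.pm s' z h1
    exact ⟨y, hy1, fun a b => by rw [hy2, key hz]⟩
  · obtain ⟨x, hx⟩ := B.surjT s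
    obtain ⟨z, hz⟩ := ex_cu hSCF B κ s (fun _ : Unit => x)
    have h1 := key hz () ()
    rw [B.ct_self, hx] at h1
    unfold tm
    rw [h1]
    refine hL κ _ _ (zb_s hz () hx) fun l => ?_
    rw [hz.typ, hx]
  · intro t ht
    obtain ⟨x, hx⟩ := B.surjT t
    obtain ⟨z, hz⟩ := ex_cu hSCF B κ s (fun _ : Unit => x)
    have h1 := key hz () ()
    rw [B.ct_self, hx] at h1
    unfold tm
    rw [h1]
    refine hL gen _ _ (zb_t hz () (by rw [hx]; exact ht)) fun l => ?_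
    rw [hz.typ, hx]
  · intro z z' hz1 hz2 hz3 hz4 hz5 hz6
    obtain ⟨x, y, hxy, hx, hy, hc⟩ := ex_pair hSCF B s
    obtain ⟨w, hw⟩ := ex_cu hSCF B κ s ![x, y]
    have h1 := key hw 0 1
    have h2 : B.ct (![x, y] 0) (![x, y] 1) = (B.fr s s, Ordering.lt) :=
      Prod.ext hc ((B.ct_snd_lt x y).2 hxy)
    rw [h2] at h1
    rw [h1]
    have hw0 : ZB B κ (w 0) := zb_s hw 0 hx
    have hw1 : ZB B κ (w 1) := zb_s hw 1 hy
    have ht0 : ∀ l, B.vt (w 0 l) = s := fun l => by rw [hw.typ]; exact hx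
    have ht1 : ∀ l, B.vt (w 1 l) = s := fun l => by rw [hw.typ]; exact hy
    have hl0 : ∀ l, lvu B κ s (![x, y] 0) l = 2 * κ l := fun l => by
      rw [lvu, if_pos]
      exact hx
    have hl1 : ∀ l, lvu B κ s (![x, y] 1) l = 2 * κ l := fun l => by
      rw [lvu, if_pos]
      exact hy
    have hcr : ∀ l l', B.ct (z l) (z' l') = B.ct (w 0 l) (w 1 l') := by
      intro l l'
      rw [B.ct_eq_ct]
      refine ⟨?_, ?_, ?_⟩
      · rw [hz6]
        have h3 := hw.col 0 l 1 l'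
        by_cases h4 : (spu κ (lvu B κ s (![x, y] 0) l) ∩
            spu κ (lvu B κ s (![x, y] 1) l')).Nonempty ∧ ![x, y] 0 ≠ ![x, y] 1
        · rw [h3.1 h4]
          exact hc.symm
        · rw [h3.2 h4]
          show B.fr s s = B.fr (B.vt x) (B.vt y)
          rw [hx, hy]
      · rw [(hz5 l l').1]
        have h3 := hw.lt 0 l 1 l'
        rw [h3, hl0, hl1]
        constructor
        · intro h4
          rcases h4.eq_or_lt with h5 | h5
          · exact Or.inr ⟨by rw [h5], hxy⟩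
          · exact Or.inl (by omega)
        · rintro (h4 | h4)
          · omega
          · have := h4.1
            omega
      · rw [(hz5 l' l).2]
        have h3 := hw.lt 1 l' 0 l
        rw [h3, hl0, hl1]
        constructor
        · intro h4
          exact Or.inl (by omega)
        · rintro (h4 | h4)
          · omega
          · have h5 : y < x := h4.2
            exact absurd h5 (lt_asymm hxy)
    symm
    apply hs.tid
    apply sameO_of_ct
    rintro (l | l) (l' | l')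
    · exact hz3.ct_eq hw0 (fun l => by rw [hz1, ht0]) l l'
    · exact (hcr l l').symm
    · exact B.ct_symm (hcr l' l).symm
    · exact hz4.ct_eq hw1 (fun l => by rw [hz2, ht1]) l l'

end Pool.Agent.H70.SO
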