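import Pool.Agent.H44.SO.Targets
import Pool.Agent.H44.SO.Basic

/-!
# Several orbits of vertices: averages
-/

set_option autoImplicit false
set_option linter.unusedVariables false

namespace Pool.Agent.H70.SO.AVG

open Pool.Agent.H44.SO Pool.Agent.H57.SO Pool.Agent.H68.BP Pool.Agent.H58.SF Pool.Agent.H53.GC
open Pool.Agent.H53.NR Function
open Pool.Agent.H57.EQ (Cx Tour)
open Pool.Agent.H44.EQ (PolMap TInv BinPol ZA JSet sel kap)

section

variable {V S X : Type} {σ : Sig}

/-- the property of the averages -/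
def Av (𝔸 : Str σ V) (c : V → V → S ⊕ X) (p : ℕ) (I : Type) (N : ((I → ZMod p) → X) → X) :
    Prop :=
  (∀ (e : I → ZMod p) (q : (I → ZMod p) → X), N (fun v => q (v + e)) = N q) ∧
    ∀ (W : Type) [Finite W] (rk : W → ℕ), Injective rk → ∀ (G : (I → ZMod p) → W → V),
      (∀ v, Injective (G v)) → (∀ v v' w, c (G v w) (G v w) = c (G v' w) (G v' w)) →
      ∃ ψ : W → V, Injective ψ ∧ Cx 𝔸 G ψ ∧ (∀ v w, c (ψ w) (ψ w) = c (G v w) (G v w)) ∧
        ∀ (u w : W) (q : (I → ZMod p) → X), rk u < rk w →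
          (∀ v, c (G v u) (G v w) = Sum.inr (q v)) → c (ψ u) (ψ w) = Sum.inr (N q)

theorem shift {p : ℕ} (hp : 0 < p) {f : (ZMod p → X) → X}
    (h1 : ∀ q : ZMod p → X, f (fun i => q (i + 1)) = f q) (j : ZMod p) (a : ZMod p → X) :
    f (fun i => a (i + j)) = f a := by
  have : NeZero p := ⟨hp.ne'⟩
  have key : ∀ k : ℕ, ∀ a : ZMod p → X, f (fun i => a (i + (k : ZMod p))) = f a := by
    intro k
    induction k with
    | zero =>
      intro a
      simp
    | succ k ih =>
      intro a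
      have h2 := h1 (fun i => a (i + (k : ZMod p)))
      rw [ih a] at h2
      rw [← h2]
      congr 1
      funext i
      congr 1
      push_cast
      ring
  have h3 := key j.val a
  rw [ZMod.natCast_zmod_val] at h3
  exact h3

theorem av_fin {𝔸 : Str σ V} {c : V → V → S ⊕ X} {p : ℕ} (hp : 0 < p) {f : (ZMod p → X) → X}
    (hf : Dd 𝔸 c p f) : ∀ n : ℕ, ∃ N, Av 𝔸 c p (Fin n) N := by
  intro n
  induction n with
  | zero =>
    refine ⟨fun q => q default, fun e q => ?_, fun W _ rk hrk G hG ht => ?_⟩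
    · show q (default + e) = q default
      rw [Subsingleton.elim (default + e) default]
    · refine ⟨G default, hG _, fun l z hz => hz default, fun v w => ht _ _ _, ?_⟩
      intro u w q hu hq
      exact hq default
  | succ n ih =>
    obtain ⟨N, hN1, hN2⟩ := ih
    refine ⟨fun q => f fun i => N fun v => q (Fin.cons i v), fun e q => ?_,
      fun W _ rk hrk G hG ht => ?_⟩
    · show f (fun i => N fun v => q ((Fin.cons i v : Fin (n + 1) → ZMod p) + e)) =
        f fun i => N fun v => q (Fin.cons i v)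
      rw [← shift hp hf.1 (e 0) (fun i => N fun v => q (Fin.cons i v))]
      congr 1
      funext i
      rw [← hN1 (Fin.tail e) (fun v => q (Fin.cons (i + e 0) v))]
      congr 1
      funext v
      congr 1
      funext a
      refine Fin.cases ?_ (fun a => ?_) a
      · simp
      · simp [Fin.tail]
    · have h1 : ∀ i : ZMod p, ∃ ψ : W → V, Injective ψ ∧
          Cx 𝔸 (fun v : Fin n → ZMod p => G (Fin.cons i v)) ψ ∧
          (∀ (v : Fin n → ZMod p) w, c (ψ w) (ψ w) =
            c (G (Fin.cons i v) w) (G (Fin.cons i v) w)) ∧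
          ∀ (u w : W) (q : (Fin n → ZMod p) → X), rk u < rk w →
            (∀ v : Fin n → ZMod p, c (G (Fin.cons i v) u) (G (Fin.cons i v) w) =
              Sum.inr (q v)) → c (ψ u) (ψ w) = Sum.inr (N q) := fun i =>
        hN2 W rk hrk (fun v => G (Fin.cons i v)) (fun v => hG _) fun v v' w => ht _ _ _
      choose ψ hψ1 hψ2 hψ3 hψ4 using h1
      obtain ⟨φ, hφ1, hφ2, hφ3, hφ4⟩ := hf.2 W rk hrk ψ hψ1 (by
        intro i w
        rw [hψ3 i 0 w, hψ3 0 0 w]
        exact ht _ _ _)
      refine ⟨φ, hφ1, fun l z hz => ?_, fun v w => ?_, fun u w q huw hq => ?_⟩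
      · exact hφ2 l z fun i => hψ2 i l z fun v => hz (Fin.cons i v)
      · rw [hφ3 w, hψ3 0 0 w]
        exact ht _ _ _
      · exact hφ4 u w _ huw fun i => hψ4 i u w (fun v => q (Fin.cons i v)) huw fun v => hq _

end

theorem pf_AVG : T_AVG := by
  intro σ V S X _ P 𝔸 M c hs p f hp hf I _
  obtain ⟨n, ⟨e⟩⟩ := Finite.exists_equiv_fin I
  obtain ⟨N, hN1, hN2⟩ := av_fin hp hf n
  refine ⟨fun q => N fun v => q (v ∘ e), fun e' q => ?_, fun W _ rk hrk G hG ht => ?_⟩
  · show N (fun v => q (v ∘ e + e')) = N fun v => q (v ∘ e)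
    rw [← hN1 (e' ∘ e.symm) (fun v => q (v ∘ e))]
    congr 1
    funext v
    congr 1
    funext a
    simp
  · obtain ⟨ψ, h1, h2, h3, h4⟩ := hN2 W rk hrk (fun v => G (v ∘ e)) (fun v => hG _)
      fun v v' w => ht _ _ _
    refine ⟨ψ, h1, fun l z hz => h2 l z fun v => hz _, fun v w => ?_, fun u w q huw hq => ?_⟩
    · have h5 := h3 (v ∘ e.symm) w
      rw [h5]
      exact ht _ _ _
    · exact h4 u w (fun v => q (v ∘ e)) huw fun v => hq _

end Pool.Agent.H70.SO.AVG
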